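import Pool.Agent.W761.CC.LayS

set_option autoImplicit false

/-! Project CC: geometry of the cubes in the blocks. -/

open MeasureTheory Set
open scoped ENNReal

namespace Pool.Agent.W469.CC.LG

open Pool.Agent.W761.CB Pool.Agent.W761.CC

/-- measure of an arc -/
theorem arc {L : ℝ} [Fact (0 < L)] {I : Set ℝ} (hI : MeasurableSet I) {a : ℝ}
    (hs : I ⊆ Ioc a (a + L)) :
    MeasurableSet ((fun t : ℝ => (t : AddCircle L)) '' I) ∧
      volume ((fun t : ℝ => (t : AddCircle L)) '' I) = volume I := by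
  have e : (fun t : ℝ => (t : AddCircle L)) '' I =
      (AddCircle.measurableEquivIoc L a) ⁻¹' (Subtype.val ⁻¹' I) := by
    ext x
    constructor
    · rintro ⟨t, ht, rfl⟩
      have h1 : (AddCircle.measurableEquivIoc L a) (t : AddCircle L) = ⟨t, hs ht⟩ :=
        AddCircle.equivIoc_coe_eq (hs ht)
      rw [mem_preimage, h1]
      exact ht
    · intro hx
      refine ⟨_, hx, ?_⟩
      exact AddCircle.coe_equivIoc
  have hm : MeasurableSet ((fun t : ℝ => (t : AddCircle L)) '' I) := by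
    rw [e]
    exact (AddCircle.measurableEquivIoc L a).measurable (measurable_subtype_coe hI)
  refine ⟨hm, ?_⟩
  rw [AddCircle.add_projection_respects_measure L a hm]
  congr 1
  ext t
  constructor
  · rintro ⟨⟨s, hs1, hs2⟩, ht⟩
    have h2 : (s : AddCircle L) = (t : AddCircle L) := hs2
    rw [AddCircle.coe_eq_coe_iff_of_mem_Ioc (hs hs1) ht] at h2
    rw [← h2]
    exact hs1
  · intro ht
    exact ⟨⟨t, ht, rfl⟩, hs ht⟩

/-- product of arcs -/
theorem parc {n : ℕ} {L : ℝ} [Fact (0 < L)] (u v : Fin n → ℝ) (a : Fin n → ℝ)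
    (hs : ∀ c, Ico (u c) (v c) ⊆ Ioc (a c) (a c + L)) :
    MeasurableSet {x : Tor n L | ∀ c, ∃ t : ℝ, u c ≤ t ∧ t < v c ∧ x c = (t : AddCircle L)} ∧
      volume {x : Tor n L | ∀ c, ∃ t : ℝ, u c ≤ t ∧ t < v c ∧ x c = (t : AddCircle L)} =
        ∏ c, ENNReal.ofReal (v c - u c) := by
  have e : {x : Tor n L | ∀ c, ∃ t : ℝ, u c ≤ t ∧ t < v c ∧ x c = (t : AddCircle L)} =
      Set.pi univ fun c => (fun t : ℝ => (t : AddCircle L)) '' Ico (u c) (v c) := by
    ext x
    simp only [mem_ofPred_eq, mem_pi, mem_univ, true_implies, mem_image, mem_Ico]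
    refine forall_congr' fun c => ⟨?_, ?_⟩
    · rintro ⟨t, h1, h2, h3⟩
      exact ⟨t, ⟨h1, h2⟩, h3.symm⟩
    · rintro ⟨t, ⟨h1, h2⟩, h3⟩
      exact ⟨t, h1, h2, h3.symm⟩
  rw [e]
  constructor
  · exact MeasurableSet.univ_pi fun c => (arc measurableSet_Ico (hs c)).1
  · rw [volume_pi_pi]
    refine Finset.prod_congr rfl fun c _ => ?_
    rw [(arc measurableSet_Ico (hs c)).2, Real.volume_Ico]

theorem mem_Cr (hTF : S_TF) {n : ℕ} {L : ℝ} [Fact (0 < L)] {r : ℝ} (hr : r ≤ L / 2)
    (y y' : Tor n L) : y' ∈ Cr r y ↔ ∀ c, ‖y' c - y c‖ ≤ r := by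
  obtain ⟨-, -, -, -, -, h6, h7, -⟩ := hTF n L
  constructor
  · rintro ⟨z, hz, rfl⟩ c
    have e : (y + pr L z) c - y c = pr L z c := by
      rw [Pi.add_apply, add_sub_cancel_left]
    rw [e, h6 z (fun c => (hz c).trans hr) c]
    exact hz c
  · intro h
    obtain ⟨z, hz, e⟩ := h7 (y' - y)
    refine ⟨z, fun c => ?_, ?_⟩
    · rw [(hz c).1]
      exact h c
    · rw [← e]
      abel

theorem vol_ball {n : ℕ} {L : ℝ} [Fact (0 < L)] (y : Tor n L) (s : ℝ) :
    volume {y' : Tor n L | ∀ c, ‖y' c - y c‖ ≤ s} = ∏ _c : Fin n, ENNReal.ofReal (min L (2 * s)) := by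
  have e : {y' : Tor n L | ∀ c, ‖y' c - y c‖ ≤ s} =
      Set.pi univ fun c => Metric.closedBall (y c) s := by
    ext x
    simp only [mem_ofPred_eq, mem_pi, mem_univ, true_implies, Metric.mem_closedBall, dist_eq_norm]
  rw [e, volume_pi_pi]
  refine Finset.prod_congr rfl fun c _ => ?_
  rw [AddCircle.volume_closedBall]

theorem mapeq (hTF : S_TF) {n : ℕ} {L : ℝ} [Fact (0 < L)] {r : ℝ} (hr : r < L / 2)
    (hCr : ∀ y : Tor n L, MeasurableSet (Cr r y)) (y : Tor n L) :
    Measure.map (fun z : Fin n → ℝ => y + pr L z) (volume.restrict (cube n r)) =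
      volume.restrict (Cr r y) := by
  obtain ⟨-, h2, -, h4, h5, h6, -⟩ := hTF n L
  have hφ : Measurable (fun z : Fin n → ℝ => y + pr L z) := h2.const_add y
  ext A hA
  rw [Measure.map_apply hφ hA, Measure.restrict_apply (hφ hA), Measure.restrict_apply hA]
  have hm : MeasurableSet (A ∩ Cr r y) := hA.inter (hCr y)
  have e1 : volume (A ∩ Cr r y) = ∫⁻ x, (A ∩ Cr r y).indicator 1 x := by
    rw [lintegral_indicator_one hm]
  have hi : Measurable ((A ∩ Cr r y).indicator (1 : Tor n L → ℝ≥0∞)) :=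
    measurable_one.indicator hm
  have hk : Measurable fun x : Tor n L => (A ∩ Cr r y).indicator (1 : Tor n L → ℝ≥0∞) (x + y) :=
    hi.comp (measurable_id.add_const y)
  rw [e1, ← h5 _ hi y, h4 _ hk]
  set P : Set (Fin n → ℝ) := {z | ∀ c, -(L / 2) < z c ∧ z c ≤ L / 2} with hP
  have hPm : MeasurableSet P := by
    rw [hP]
    have : {z : Fin n → ℝ | ∀ c, -(L / 2) < z c ∧ z c ≤ L / 2} =
        Set.pi univ fun _ => Ioc (-(L / 2)) (L / 2) := by
      ext z
      simp only [mem_ofPred_eq, mem_pi, mem_univ, true_implies, mem_Ioc]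
    rw [this]
    exact MeasurableSet.univ_pi fun _ => measurableSet_Ioc
  have hcm : MeasurableSet (cube n r) := by
    have : cube n r = Set.pi univ fun _ => Icc (-r) r := by
      ext z
      simp only [cube, mem_ofPred_eq, mem_pi, mem_univ, true_implies, mem_Icc, abs_le]
    rw [this]
    exact MeasurableSet.univ_pi fun _ => measurableSet_Icc
  have hcP : cube n r ⊆ P := by
    intro z hz c
    have := abs_le.1 (hz c)
    exact ⟨by linarith [this.1], by linarith [this.2]⟩
  have e2 : ∫⁻ z in P, (A ∩ Cr r y).indicator (1 : Tor n L → ℝ≥0∞) (pr L z + y) =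
      ∫⁻ z in P, ((fun z : Fin n → ℝ => y + pr L z) ⁻¹' A ∩ cube n r).indicator 1 z := by
    apply setLIntegral_congr_fun hPm
    intro z hz
    have hz2 : ∀ c, |z c| ≤ L / 2 := fun c => abs_le.2 ⟨(hz c).1.le, (hz c).2⟩
    have k : pr L z + y ∈ Cr r y ↔ z ∈ cube n r := by
      rw [mem_Cr hTF hr.le]
      refine forall_congr' fun c => ?_
      rw [Pi.add_apply, add_sub_cancel_right, h6 z hz2 c]
    change (A ∩ Cr r y).indicator (1 : Tor n L → ℝ≥0∞) (pr L z + y) = _
    by_cases hz3 : z ∈ (fun z : Fin n → ℝ => y + pr L z) ⁻¹' A ∩ cube n r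
    · rw [indicator_of_mem hz3, indicator_of_mem]
      · rfl
      · refine ⟨?_, k.2 hz3.2⟩
        rw [add_comm]
        exact hz3.1
    · rw [indicator_of_notMem hz3, indicator_of_notMem]
      intro h
      apply hz3
      refine ⟨?_, k.1 h.2⟩
      rw [mem_preimage, add_comm]
      exact h.1
  have e3 := e2
  rw [lintegral_indicator_one ((hφ hA).inter hcm), Measure.restrict_apply ((hφ hA).inter hcm)] at e3
  have e4 : (fun z : Fin n → ℝ => y + pr L z) ⁻¹' A ∩ cube n r ∩ P =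
      (fun z : Fin n → ℝ => y + pr L z) ⁻¹' A ∩ cube n r :=
    inter_eq_left.2 (inter_subset_right.trans hcP)
  rw [e4] at e3
  exact e3.symm

theorem bern {b s : ℝ} (hb : 0 < b) (hsb : s ≤ b) (n : ℕ) (hn : 1 ≤ n) :
    b ^ n - (b - s) ^ n ≤ n * s * b ^ (n - 1) := by
  obtain ⟨m, rfl⟩ : ∃ m, n = m + 1 := ⟨n - 1, by omega⟩
  have h := one_add_mul_le_pow (a := -(s / b)) (by
    have : s / b ≤ 1 := by rw [div_le_one hb]; exact hsb
    linarith) (m + 1)
  have h2 := mul_le_mul_of_nonneg_left h (pow_nonneg hb.le (m + 1))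
  rw [← mul_pow] at h2
  have e : b * (1 + -(s / b)) = b - s := by field_simp; ring
  rw [e] at h2
  have e2 : b ^ (m + 1) * (1 + ((m + 1 : ℕ) : ℝ) * -(s / b)) =
      b ^ (m + 1) - ((m + 1 : ℕ) : ℝ) * s * b ^ m := by
    rw [pow_succ]; field_simp; ring
  rw [e2] at h2
  rw [Nat.add_sub_cancel]
  linarith

/-- the inner part of a block -/
def inn (n : ℕ) (L b r : ℝ) (i : Fin n → ℕ) : Set (Tor n L) :=
  {x | ∀ c, ∃ t : ℝ, (i c : ℝ) * b + r ≤ t ∧ t < ((i c : ℝ) + 1) * b - r ∧ x c = (t : AddCircle L)}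

theorem bdr_eq {n : ℕ} {L b r : ℝ} [Fact (0 < L)] (hr : 0 < r) (hb : 4 * r ≤ b)
    (hL : 2 * b ≤ L) (i : Fin n → ℕ) : bdr n L b r i = blk n L b i \ inn n L b r i := by
  ext y
  constructor
  · rintro ⟨h1, h2⟩
    refine ⟨h1, fun h3 => h2 ?_⟩
    rintro y' ⟨z, hz, rfl⟩ c
    obtain ⟨t, t1, t2, t3⟩ := h3 c
    have := abs_le.1 (hz c)
    refine ⟨t + z c, by linarith [this.1], by linarith [this.2], ?_⟩
    rw [Pi.add_apply, t3]
    simp only [pr, AddCircle.coe_add]
  · rintro ⟨h1, h2⟩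
    refine ⟨h1, fun h3 => h2 ?_⟩
    intro c
    obtain ⟨t, t1, t2, t3⟩ := h1 c
    refine ⟨t, ?_, ?_, t3⟩
    · by_contra hlt
      push Not at hlt
      have h4 : y + pr L (Pi.single c (-r)) ∈ Cr r y := by
        refine ⟨Pi.single c (-r), fun c' => ?_, rfl⟩
        by_cases hc : c' = c
        · subst hc
          rw [Pi.single_eq_same, abs_neg, abs_of_pos hr]
        · rw [Pi.single_eq_of_ne hc, abs_zero]
          exact hr.le
      obtain ⟨s, s1, s2, s3⟩ := h3 h4 c
      have e : (y + pr L (Pi.single c (-r))) c = ((t - r : ℝ) : AddCircle L) := by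
        rw [Pi.add_apply, t3]
        simp only [pr, Pi.single_eq_same]
        rw [← AddCircle.coe_add, sub_eq_add_neg]
      rw [e] at s3
      have m1 : t - r ∈ Ioc (((i c : ℝ) + 1) * b - L) (((i c : ℝ) + 1) * b - L + L) :=
        ⟨by nlinarith, by linarith⟩
      have m2 : s ∈ Ioc (((i c : ℝ) + 1) * b - L) (((i c : ℝ) + 1) * b - L + L) :=
        ⟨by nlinarith, by linarith⟩
      rw [AddCircle.coe_eq_coe_iff_of_mem_Ioc m1 m2] at s3
      linarith
    · by_contra hlt
      push Not at hlt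
      have h4 : y + pr L (Pi.single c r) ∈ Cr r y := by
        refine ⟨Pi.single c r, fun c' => ?_, rfl⟩
        by_cases hc : c' = c
        · subst hc
          rw [Pi.single_eq_same, abs_of_pos hr]
        · rw [Pi.single_eq_of_ne hc, abs_zero]
          exact hr.le
      obtain ⟨s, s1, s2, s3⟩ := h3 h4 c
      have e : (y + pr L (Pi.single c r)) c = ((t + r : ℝ) : AddCircle L) := by
        rw [Pi.add_apply, t3]
        simp only [pr, Pi.single_eq_same]
        rw [← AddCircle.coe_add]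
      rw [e] at s3
      have m1 : t + r ∈ Ico ((i c : ℝ) * b) ((i c : ℝ) * b + L) := ⟨by linarith, by nlinarith⟩
      have m2 : s ∈ Ico ((i c : ℝ) * b) ((i c : ℝ) * b + L) := ⟨by linarith, by nlinarith⟩
      rw [AddCircle.coe_eq_coe_iff_of_mem_Ico m1 m2] at s3
      linarith

theorem main : S_TF → S_BLK → S_LG := by
  intro hTF _ n L b r _ q hn hq hL hr hrb
  have hb : 0 < b := by linarith
  have hq2 : (2 : ℝ) ≤ q := by exact_mod_cast hq
  have hL2 : 2 * b ≤ L := by rw [hL]; nlinarith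
  have hsub : ∀ (i : Fin n → ℕ) (c : Fin n), Ico ((i c : ℝ) * b) (((i c : ℝ) + 1) * b) ⊆
      Ioc (((i c : ℝ) + 1) * b - L) (((i c : ℝ) + 1) * b - L + L) := by
    intro i c t ht
    exact ⟨by nlinarith [ht.1], by linarith [ht.2]⟩
  have hsub2 : ∀ (i : Fin n → ℕ) (c : Fin n), Ico ((i c : ℝ) * b + r) (((i c : ℝ) + 1) * b - r) ⊆
      Ioc (((i c : ℝ) + 1) * b - L) (((i c : ℝ) + 1) * b - L + L) := by
    intro i c t ht
    exact ⟨by nlinarith [ht.1], by linarith [ht.2]⟩
  have hB : ∀ i : Fin n → ℕ, MeasurableSet (blk n L b i) ∧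
      volume (blk n L b i) = ENNReal.ofReal (b ^ n) := by
    intro i
    have := parc (L := L) (fun c => (i c : ℝ) * b) (fun c => ((i c : ℝ) + 1) * b) _ (hsub i)
    refine ⟨this.1, this.2.trans ?_⟩
    have e : ∀ c, ((i c : ℝ) + 1) * b - (i c : ℝ) * b = b := fun c => by ring
    simp only [e, Finset.prod_const, Finset.card_univ, Fintype.card_fin]
    rw [ENNReal.ofReal_pow hb.le]
  have hI : ∀ i : Fin n → ℕ, MeasurableSet (inn n L b r i) ∧
      volume (inn n L b r i) = ENNReal.ofReal ((b - 2 * r) ^ n) := by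
    intro i
    have := parc (L := L) (fun c => (i c : ℝ) * b + r) (fun c => ((i c : ℝ) + 1) * b - r) _
      (hsub2 i)
    refine ⟨this.1, this.2.trans ?_⟩
    have e : ∀ c, ((i c : ℝ) + 1) * b - r - ((i c : ℝ) * b + r) = b - 2 * r := fun c => by ring
    simp only [e, Finset.prod_const, Finset.card_univ, Fintype.card_fin]
    rw [ENNReal.ofReal_pow (by linarith)]
  have hsI : ∀ i : Fin n → ℕ, inn n L b r i ⊆ blk n L b i := by
    intro i y hy c
    obtain ⟨t, t1, t2, t3⟩ := hy c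
    exact ⟨t, by linarith, by linarith, t3⟩
  have mnorm : ∀ s : ℝ, MeasurableSet {p : Tor n L × Tor n L | ∀ c, ‖p.2 c - p.1 c‖ ≤ s} := by
    intro s
    have e : {p : Tor n L × Tor n L | ∀ c, ‖p.2 c - p.1 c‖ ≤ s} =
        ⋂ c, {p : Tor n L × Tor n L | ‖p.2 c - p.1 c‖ ≤ s} := by
      ext p
      simp only [mem_ofPred_eq, mem_iInter]
    rw [e]
    refine MeasurableSet.iInter fun c => measurableSet_le ?_ measurable_const
    exact (((measurable_pi_apply c).comp measurable_snd).sub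
      ((measurable_pi_apply c).comp measurable_fst)).norm
  have mCr : ∀ y : Tor n L, MeasurableSet (Cr r y) := by
    intro y
    have e : Cr r y = (fun y' => (y, y')) ⁻¹' {p : Tor n L × Tor n L | ∀ c, ‖p.2 c - p.1 c‖ ≤ r} := by
      ext y'
      rw [mem_Cr hTF (by linarith)]
      rfl
    rw [e]
    exact measurable_prodMk_left (mnorm r)
  refine ⟨fun i => (hB _).2, fun i => ?_, ?_, ?_, fun y => ?_, fun y => ?_, ?_⟩
  · rw [bdr_eq hr hrb hL2]
    refine ⟨(hB _).1.diff (hI _).1, ?_⟩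
    rw [measure_sdiff (hsI _) (hI _).1.nullMeasurableSet (by rw [(hI _).2]; exact ENNReal.ofReal_ne_top),
      (hB _).2, (hI _).2, ← ENNReal.ofReal_sub _ (pow_nonneg (by linarith) n)]
    apply ENNReal.ofReal_le_ofReal
    have := bern hb (s := 2 * r) (by linarith) n hn
    linarith
  · have e : {p : Tor n L × Tor n L | nr r p.1 p.2} =
        {p : Tor n L × Tor n L | ∀ c, ‖p.2 c - p.1 c‖ ≤ 2 * r} := by
      ext p
      simp only [mem_ofPred_eq, nr]
      exact forall_congr' fun c => by rw [norm_sub_rev]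
    rw [e]
    exact mnorm _
  · have e : {p : Tor n L × Tor n L | p.2 ∈ Cr r p.1} =
        {p : Tor n L × Tor n L | ∀ c, ‖p.2 c - p.1 c‖ ≤ r} := by
      ext p
      simp only [mem_ofPred_eq]
      exact mem_Cr hTF (by linarith) _ _
    rw [e]
    exact mnorm _
  · have e : {y' : Tor n L | nr r y y'} = {y' : Tor n L | ∀ c, ‖y' c - y c‖ ≤ 2 * r} := by
      ext p
      simp only [mem_ofPred_eq, nr]
      exact forall_congr' fun c => by rw [norm_sub_rev]
    rw [e, vol_ball, Finset.prod_const, Finset.card_univ, Fintype.card_fin,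
      ENNReal.ofReal_pow (by linarith)]
    gcongr
    refine (min_le_right _ _).trans (by linarith)
  · have e : Cr r y = {y' : Tor n L | ∀ c, ‖y' c - y c‖ ≤ r} := by
      ext y'
      exact mem_Cr hTF (by linarith) _ _
    rw [e, vol_ball, Finset.prod_const, Finset.card_univ, Fintype.card_fin,
      ENNReal.ofReal_pow (by linarith), min_eq_right (by linarith)]
  · intro f y hf _
    rw [← mapeq hTF (by linarith) mCr y]
    rw [integral_map]
    · exact ((hTF n L).2.1.const_add y).aemeasurable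
    · exact hf.aestronglyMeasurable

end Pool.Agent.W469.CC.LG
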